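import Mathlib
import Pool.Agent.Helper34.ED.Dist

set_option autoImplicit false

namespace Pool.Agent.Results.MP_5904a2_co.UnboundedRatio

open Pool.Agent.Helper34.ED

/-- For every real `K` there are a finite connected graph `G` and a vertex `v` with
`f_p(G, v) / f_d(G, v) > K`. -/
theorem result : ∀ K : ℝ, ∃ (V : Type) (_ : Fintype V) (_ : DecidableEq V)
    (G : SimpleGraph V) (v : V), G.Connected ∧ K < (fp G v : ℝ) / (fd G v : ℝ) := by
  intro K
  obtain ⟨n, hn⟩ := exists_nat_gt K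
  have hm : 3 ≤ 5 * n + 3 := by omega
  have hne : NeZero (5 * n + 3) := ⟨by omega⟩
  refine ⟨Vt (5 * n + 3), inferInstance, inferInstance, Gr (5 * n + 3), vx (.B 1), connected, ?_⟩
  have h1 : 5 * n + 3 - 1 ≤ fp (Gr (5 * n + 3)) (vx (.B 1)) := fp_ge hm
  have h2 : fd (Gr (5 * n + 3)) (vx (.B 1)) ≤ 5 := fd_le (by omega)
  have h3 : 1 ≤ fd (Gr (5 * n + 3)) (vx (.B 1)) := one_le_value
  have h1' : (5 * n : ℝ) ≤ (fp (Gr (5 * n + 3)) (vx (.B 1)) : ℝ) := by
    have : 5 * n ≤ fp (Gr (5 * n + 3)) (vx (.B 1)) := by omega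
    exact_mod_cast this
  have h2' : (fd (Gr (5 * n + 3)) (vx (.B 1)) : ℝ) ≤ 5 := by exact_mod_cast h2
  have h3' : (1 : ℝ) ≤ (fd (Gr (5 * n + 3)) (vx (.B 1)) : ℝ) := by exact_mod_cast h3
  have hn0 : (0 : ℝ) ≤ n := Nat.cast_nonneg n
  rw [lt_div_iff₀ (by linarith)]
  rcases le_or_gt K 0 with hK | hK
  · rcases hK.lt_or_eq with hK | hK
    · nlinarith
    · rw [hK] at hn ⊢
      rw [zero_mul]
      linarith
  · nlinarith

end Pool.Agent.Results.MP_5904a2_co.UnboundedRatio
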